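import Mathlib
import Pool.Agent.H56.SPH.All
import Pool.Agent.H78.UX.FA
import Pool.Agent.H32.RB.Main

/-!
# The dimension of the post-critical set is at least one

The work is in: `H66/DIM`, `H66/GEO`, `H91/GS` (the limit theorem), `H81/RW`, `H47/LG` (lengths of windows), `H66/SP`,
`H64/SPG` (windows at the critical points and their limits), `H39/EMB` (the minimal pieces), `H21/AS` (asymptotic
connectedness), `H56/END` (Julia set not the sphere), `H56/SPH` (Julia set equal to the sphere), `H56/UD`, `H43/UB`,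
`H66/IL`, `H27/BR`, `H31/UDC`, `H78/UX`, `H66/UX`, `H91/AD` (fields, line fields, uniformly disconnected sets).
-/

set_option autoImplicit false

namespace Pool.Agent.H56.FIN.DimS

open Polynomial Filter Topology

/-- `f` is the rational map `P/Q` on the sphere. -/
def IsMap (f : OnePoint ℂ → OnePoint ℂ) (P Q : Polynomial ℂ) : Prop :=
  Continuous f ∧
    ∀ z : ℂ, Q.eval z ≠ 0 → f (OnePoint.some z) = OnePoint.some (P.eval z / Q.eval z)

/-- `c` is a critical point of `f`. -/
def IsCritical (f : OnePoint ℂ → OnePoint ℂ) (c : OnePoint ℂ) : Prop :=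
  ¬ ∃ U ∈ nhds c, Set.InjOn f U

/-- `c` is attracted by an attracting cycle of `f` (words of the frozen statement `S05373`). -/
def IsAttracted (f : OnePoint ℂ → OnePoint ℂ) (c : OnePoint ℂ) : Prop :=
  ∃ z : OnePoint ℂ, ∃ n : ℕ, 0 < n ∧ f^[n] z = z ∧
    (∃ U ∈ nhds z, ∀ w ∈ U,
      Filter.Tendsto (fun k : ℕ => f^[n * k] w) Filter.atTop (nhds z)) ∧
    Filter.Tendsto (fun k : ℕ => f^[n * k] c) Filter.atTop (nhds z)

/-- The number of the critical points which are attracted by attracting cycles. -/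
noncomputable def attractedNumber (f : OnePoint ℂ → OnePoint ℂ) : ℕ :=
  {c : OnePoint ℂ | IsCritical f c ∧ IsAttracted f c}.ncard

/-- The chordal distance of the Riemann sphere. -/
noncomputable def chordal : OnePoint ℂ → OnePoint ℂ → ℝ
  | OnePoint.some z, OnePoint.some w => ‖z - w‖ / (√(1 + ‖z‖ ^ 2) * √(1 + ‖w‖ ^ 2))
  | OnePoint.some z, OnePoint.infty => 1 / √(1 + ‖z‖ ^ 2)
  | OnePoint.infty, OnePoint.some w => 1 / √(1 + ‖w‖ ^ 2)
  | OnePoint.infty, OnePoint.infty => 0

/-- The Julia set of `f`: the points without a neighbourhood at whose points the iterates of `f` are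
equicontinuous for the chordal distance. -/
def julia (f : OnePoint ℂ → OnePoint ℂ) : Set (OnePoint ℂ) :=
  (interior {x | ∀ ε : ℝ, 0 < ε → ∀ᶠ y in nhds x, ∀ n : ℕ, chordal (f^[n] x) (f^[n] y) < ε})ᶜ

/-- The closure of the set of all `f^n(c)`, `n ≥ 1`, `c` a critical point in the Julia set. -/
def postcritical (f : OnePoint ℂ → OnePoint ℂ) : Set (OnePoint ℂ) :=
  closure {y | ∃ c, IsCritical f c ∧ c ∈ julia f ∧ ∃ n : ℕ, 1 ≤ n ∧ f^[n] c = y}

/-- `K` is uniformly disconnected (David and Semmes): there is a constant `C` such that for every point `x` of `K` and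
every `r > 0` there is a part `A` of `K` with `x ∈ A`, in the chordal disc of radius `r` at `x`, whose points have
chordal distance at least `r / C` from all points of `K` outside `A`. -/
def IsUniformlyDisconnected (K : Set (OnePoint ℂ)) : Prop :=
  ∃ C : ℝ, 0 < C ∧ ∀ x ∈ K, ∀ r : ℝ, 0 < r → ∃ A ⊆ K, x ∈ A ∧ (∀ a ∈ A, chordal x a < r) ∧
    ∀ a ∈ A, ∀ p ∈ K, p ∉ A → r ≤ C * chordal a p

/-- `M` is a minimal piece of `K`: a nonempty closed part of `K` which is mapped into itself and contains no smaller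
nonempty closed set which is mapped into itself; the rest of `K` is closed. -/
def IsMinimalPiece (f : OnePoint ℂ → OnePoint ℂ) (K M : Set (OnePoint ℂ)) : Prop :=
  (M ⊆ K ∧ IsClosed M ∧ M.Nonempty ∧ IsClosed (K \ M) ∧ ∀ x ∈ M, f x ∈ M) ∧
    ∀ L ⊆ M, IsClosed L → L.Nonempty → (∀ x ∈ L, f x ∈ L) → L = M

/-- `M` is asymptotically connected: for every `ε > 0` there is `r0 > 0` such that no nonempty part `A` of `M` with
chordal diameter at most `r < r0` has distance at least `ε r` from the rest of `M`. -/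
def IsAsymptoticallyConnected (M : Set (OnePoint ℂ)) : Prop :=
  ∀ ε : ℝ, 0 < ε → ∃ r0 : ℝ, 0 < r0 ∧ ∀ r : ℝ, 0 < r → r < r0 → ∀ A ⊆ M, A.Nonempty →
    (∀ x ∈ A, ∀ y ∈ A, chordal x y ≤ r) → ∃ x ∈ A, ∃ y ∈ M, y ∉ A ∧ chordal x y < ε * r

/-- `f` and `g` are topologically conjugate. -/
def AreConjugate (f g : OnePoint ℂ → OnePoint ℂ) : Prop :=
  ∃ h : OnePoint ℂ ≃ₜ OnePoint ℂ, ∀ x, h (f x) = g (h x)

/-- The polynomial of degree at most `d` with coefficients `v`. -/
noncomputable def poly {d : ℕ} (v : Fin (d + 1) → ℂ) : Polynomial ℂ := ∑ i, C (v i) * X ^ (i : ℕ)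

/-- Pairs of polynomials `P`, `Q` with `deg P ≤ d`, `deg Q ≤ d - m`, given by their coefficients. -/
abbrev Pairs (d m : ℕ) : Type := (Fin (d + 1) → ℂ) × (Fin (d - m + 1) → ℂ)

/-- `f = P/Q` is the rational map of degree exactly `d` given by the pair `v = (P, Q)` of coprime
polynomials, `deg Q ≤ d - m`. For `m = 0` these are all rational maps of degree `d`, for `m ≥ 1` those
which fix infinity with local degree at least `m`, for `m = d` the polynomials (up to the constant `Q`). -/
def IsRational {d m : ℕ} (v : Pairs d m) (f : OnePoint ℂ → OnePoint ℂ) : Prop :=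
  IsCoprime (poly v.1) (poly v.2) ∧ max (poly v.1).natDegree (poly v.2).natDegree = d ∧
    IsMap f (poly v.1) (poly v.2)

/-- The Julia set contains no critical point, or the post-critical set `K` (the closure of the forward orbits of the
critical values of the critical points in the Julia set) has the following properties. (a) The part of `K` in the plane
has Hausdorff dimension at least one. (b) `K` is not uniformly disconnected. (c) `K` contains a connected set with two
points, or a minimal piece `M` with a critical point such that `M` is asymptotically connected and every nonempty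
relatively open subset of `M` has Hausdorff dimension at least one (and `M = K` if the Julia set contains only one
critical point). -/
def IsThick (f : OnePoint ℂ → OnePoint ℂ) : Prop :=
  postcritical f = ∅ ∨
    (1 ≤ dimH {z : ℂ | (z : OnePoint ℂ) ∈ postcritical f} ∧ ¬ IsUniformlyDisconnected (postcritical f) ∧
      ((∃ A ⊆ postcritical f, IsPreconnected A ∧ A.Nontrivial) ∨
        ∃ M, IsMinimalPiece f (postcritical f) M ∧ (∃ c ∈ M, IsCritical f c) ∧ IsAsymptoticallyConnected M ∧
          (∀ U : Set (OnePoint ℂ), IsOpen U → (M ∩ U).Nonempty → 1 ≤ dimH {z : ℂ | (z : OnePoint ℂ) ∈ M ∩ U}) ∧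
            ({c | IsCritical f c ∧ c ∈ julia f}.Subsingleton → M = postcritical f)))

theorem chord_eq (x y : OnePoint ℂ) : chordal x y = Pool.Agent.H35.EX.chord x y := by
  induction x using OnePoint.rec with
  | infty =>
    induction y using OnePoint.rec with
    | infty => rfl
    | coe y => rfl
  | coe x =>
    induction y using OnePoint.rec with
    | infty => rfl
    | coe y => rfl

theorem julia_eq (f : OnePoint ℂ → OnePoint ℂ) : julia f = Pool.Agent.H44.RC.JS f := by
  unfold julia Pool.Agent.H44.RC.JS Pool.Agent.H56.HR.FS Pool.Agent.H56.HR.EqAt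
  simp only [chord_eq]

theorem att_iff {f : OnePoint ℂ → OnePoint ℂ} {c : OnePoint ℂ} :
    Pool.Agent.H32.BT.Att f c ↔ IsAttracted f c := by
  constructor
  · rintro ⟨z, n, ⟨h1, h2, h3⟩, h4⟩
    exact ⟨z, n, h1, h2, h3, h4⟩
  · rintro ⟨z, n, h1, h2, h3, h4⟩
    exact ⟨z, n, ⟨h1, h2, h3⟩, h4⟩

theorem number_eq {d : ℕ} (v : Pool.Agent.H79.Eul.E d) :
    attractedNumber (Pool.Agent.H79.Par.Rf v) = Pool.Agent.H79.ES.NA v := by
  unfold attractedNumber Pool.Agent.H79.ES.NA
  congr 1
  ext c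
  exact and_congr Iff.rfl att_iff.symm

theorem map_eq {d m : ℕ} (hd : 2 ≤ d) {v : Pairs d m} {f : OnePoint ℂ → OnePoint ℂ} (h : IsRational v f) :
    f = Pool.Agent.H79.Par.Rf (Pool.Agent.H47.NM.ex d m v) := by
  obtain ⟨h1, h2, h3⟩ := h
  have h1' : IsCoprime (Pool.Agent.H79.Eul.pol v.1) (Pool.Agent.H79.Eul.pol v.2) := h1
  have h2' : max (Pool.Agent.H79.Eul.pol v.1).natDegree (Pool.Agent.H79.Eul.pol v.2).natDegree = d := h2
  have hB0 : Pool.Agent.H79.Eul.pol v.2 ≠ 0 := Pool.Agent.H32.BT.den_ne_zero h1' (by omega)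
  have h4 := Pool.Agent.H32.RB.ext_eq h1' hB0 h3
  unfold Pool.Agent.H79.Par.Rf
  rw [(Pool.Agent.H47.NM.ex_pol v).1, (Pool.Agent.H47.NM.ex_pol v).2]
  exact h4

theorem rat_is {d m : ℕ} {v : Pairs d m} (h1 : IsCoprime (poly v.1) (poly v.2))
    (h2 : max (poly v.1).natDegree (poly v.2).natDegree = d) : IsRational v
      (Pool.Agent.H79.Par.Rf (Pool.Agent.H47.NM.ex d m v)) := by
  have h1' : IsCoprime (Pool.Agent.H79.Eul.pol v.1) (Pool.Agent.H79.Eul.pol v.2) := h1
  unfold Pool.Agent.H79.Par.Rf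
  rw [(Pool.Agent.H47.NM.ex_pol v).1, (Pool.Agent.H47.NM.ex_pol v).2]
  refine ⟨h1, h2, Pool.Agent.H44.Fatou.rat_continuous h1', fun z hz => ?_⟩
  exact Pool.Agent.H44.Fatou.rat_coe_of_ne hz

theorem kj_eq (f : OnePoint ℂ → OnePoint ℂ) :
    Pool.Agent.H64.JS.KJ {c | Pool.Agent.H32.BT.IsCrit f c} (Pool.Agent.H44.RC.JS f) f = postcritical f := by
  unfold postcritical
  rw [julia_eq]
  rfl

theorem ud_iff (K : Set (OnePoint ℂ)) : Pool.Agent.H27.BR.UDs K ↔ IsUniformlyDisconnected K := by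
  unfold Pool.Agent.H27.BR.UDs IsUniformlyDisconnected
  simp only [chord_eq]

theorem ac_of {M : Set (OnePoint ℂ)} (h : Pool.Agent.H21.AS.ACs M) : IsAsymptoticallyConnected M := by
  intro ε hε
  obtain ⟨r0, h0, h1⟩ := h ε hε
  refine ⟨r0, h0, fun r hr hr0 A hA hne hd => ?_⟩
  by_contra hn
  push Not at hn
  refine h1 r hr hr0 A ⟨hne, hA, fun x hx y hy => ?_, fun x hx y hy hyA => ?_⟩
  · rw [← chord_eq]
    exact hd x hx y hy
  · rw [← chord_eq]
    exact hn x hx y hy hyA

theorem dd_of {f : OnePoint ℂ → OnePoint ℂ} (hJ : ∀ x ∈ Pool.Agent.H44.RC.JS f, f x ∈ Pool.Agent.H44.RC.JS f)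
    (h : Pool.Agent.H56.END.DD f (Pool.Agent.H64.TP.KK f)) :
    1 ≤ dimH {z : ℂ | (z : OnePoint ℂ) ∈ postcritical f} ∧
      ((∃ A ⊆ postcritical f, IsPreconnected A ∧ A.Nontrivial) ∨
        ∃ M, IsMinimalPiece f (postcritical f) M ∧ (∃ c ∈ M, IsCritical f c) ∧ IsAsymptoticallyConnected M ∧
          (∀ U : Set (OnePoint ℂ), IsOpen U → (M ∩ U).Nonempty → 1 ≤ dimH {z : ℂ | (z : OnePoint ℂ) ∈ M ∩ U}) ∧
            ({c | IsCritical f c ∧ c ∈ julia f}.Subsingleton → M = postcritical f)) := by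
  have hK : Pool.Agent.H64.TP.KK f = postcritical f := kj_eq f
  rw [← hK]
  refine ⟨Pool.Agent.H56.END.dim_dd h, ?_⟩
  rcases h with h | ⟨M, h1, h2, h3, -, h4⟩
  · exact Or.inl h
  · refine Or.inr ⟨M, ⟨⟨h1.sub, h1.cl, h1.ne, h1.off, h1.inv⟩, h1.min⟩, h2, ac_of h3, h4, fun h5 => ?_⟩
    rw [julia_eq] at h5
    exact Pool.Agent.H56.END.one_of h1 h2 hJ h5

/-- The dichotomy for one map. -/
theorem dich {d m : ℕ} (hd : 2 ≤ d) (hm : m ≤ d) {v : Pairs d m}
    {f : OnePoint ℂ → OnePoint ℂ} (hf : IsRational v f) :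
    IsThick f ∨
      ∀ ε : ℝ, 0 < ε → ∃ w ∈ Metric.ball v ε, ∃ g, IsRational w g ∧ attractedNumber f < attractedNumber g := by
  have h1 := hf.1
  have h2 := hf.2.1
  have hfe := map_eq hd hf
  subst hfe
  by_cases hup : Pool.Agent.H57.CF.UpF d m v
  · right
    intro ε hε
    obtain ⟨w, hw, h3, h4, h5⟩ := hup ε hε
    refine ⟨w, hw, _, rat_is h3 h4, ?_⟩
    rw [number_eq, number_eq]
    exact h5
  · left
    rcases Pool.Agent.H78.UX.ud_all hd hm h1 h2 hup with h3 | h3
    · left
      unfold postcritical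
      rw [closure_empty_iff, Set.eq_empty_iff_forall_notMem]
      rintro y ⟨c, hc, hcJ, -⟩
      rw [julia_eq] at hcJ
      exact h3 c hc hcJ
    · by_cases hc : ∀ c, Pool.Agent.H32.BT.IsCrit (Pool.Agent.H79.Par.Rf (Pool.Agent.H47.NM.ex d m v)) c →
          c ∉ Pool.Agent.H44.RC.JS (Pool.Agent.H79.Par.Rf (Pool.Agent.H47.NM.ex d m v))
      · left
        unfold postcritical
        rw [closure_empty_iff, Set.eq_empty_iff_forall_notMem]
        rintro y ⟨c, h4, h5, -⟩
        rw [julia_eq] at h5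
        exact hc c h4 h5
      · right
        have hJi : ∀ x ∈ Pool.Agent.H44.RC.JS (Pool.Agent.H79.Par.Rf (Pool.Agent.H47.NM.ex d m v)),
            Pool.Agent.H79.Par.Rf (Pool.Agent.H47.NM.ex d m v) x ∈
              Pool.Agent.H44.RC.JS (Pool.Agent.H79.Par.Rf (Pool.Agent.H47.NM.ex d m v)) :=
          Pool.Agent.H64.PF.js_inv hd (Pool.Agent.H57.CF.ex_cop h1) (Pool.Agent.H57.CF.ex_deg h2)
        rw [kj_eq, ud_iff] at h3
        have h6 := dd_of hJi ((Pool.Agent.H56.SPH.dd_all hd hm h1 h2 hup).resolve_left hc)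
        exact ⟨h6.1, h3, h6.2⟩

/-- The exceptional maps are nowhere dense. -/
theorem exc_nwd {d m : ℕ} (hd : 2 ≤ d) (hm : m ≤ d) :
    IsNowhereDense {v : Pairs d m | ∃ f : OnePoint ℂ → OnePoint ℂ, IsRational v f ∧ ¬ IsThick f} := by
  refine (Pool.Agent.H57.CF.upF_nwd hd).mono ?_
  rintro v ⟨f, hf, hn⟩
  refine ⟨hf.1, hf.2.1, fun ε hε => ?_⟩
  have hfe := map_eq hd hf
  subst hfe
  obtain ⟨w, hw, g, hg, hlt⟩ := (dich hd hm hf).resolve_left hn ε hε
  have hge := map_eq hd hg
  subst hge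
  refine ⟨w, hw, hg.1, hg.2.1, ?_⟩
  rw [number_eq, number_eq] at hlt
  exact hlt

/-- Conjugate maps have the same number of attracted critical points. -/
theorem number_conj {f g : OnePoint ℂ → OnePoint ℂ} (h : AreConjugate f g) :
    attractedNumber f = attractedNumber g := by
  obtain ⟨φ, hφ⟩ := h
  unfold attractedNumber
  have h1 : {c : OnePoint ℂ | IsCritical g c ∧ IsAttracted g c} =
      φ '' {c : OnePoint ℂ | IsCritical f c ∧ IsAttracted f c} := by
    ext y
    obtain ⟨x, rfl⟩ := φ.surjective y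
    have h2 : IsCritical g (φ x) ↔ IsCritical f x :=
      Pool.Agent.H32.BT.isCrit_conj φ (fun y => (hφ y).symm) x
    have h3 := Pool.Agent.H32.BT.att_conj φ (fun y => (hφ y).symm) x
    rw [att_iff, att_iff] at h3
    constructor
    · rintro ⟨h4, h5⟩
      exact ⟨x, ⟨h2.1 h4, h3.1 h5⟩, rfl⟩
    · rintro ⟨z, ⟨h4, h5⟩, he⟩
      rw [φ.injective he] at h4 h5
      exact ⟨h2.2 h4, h3.2 h5⟩
  rw [h1, Set.ncard_image_of_injective _ φ.injective]

theorem stable {d m : ℕ} (hd : 2 ≤ d) (hm : m ≤ d) {v : Pairs d m}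
    {f : OnePoint ℂ → OnePoint ℂ} (hf : IsRational v f) {ε : ℝ} (hε : 0 < ε)
    (hs : ∀ w ∈ Metric.ball v ε, ∀ g, IsRational w g → AreConjugate f g) : IsThick f := by
  refine (dich hd hm hf).resolve_right fun h => ?_
  obtain ⟨w, hw, g, hg, hlt⟩ := h ε hε
  exact hlt.ne (number_conj (hs w hw g hg))

/-- Let `2 ≤ d`, `m ≤ d`, and consider the rational maps `f = P/Q` of degree `d` with `deg Q ≤ d - m`
(`m = 0`: all rational maps of degree `d`; `m = d`: all polynomials of degree `d`).
(1) If all maps of the family near `f` are topologically conjugate to `f` and the Julia set contains a critical point,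
then the post-critical set has Hausdorff dimension at least one and the other properties in `IsThick`. (2) EVERY `f` has
the property `IsThick`, or there are maps of the family arbitrarily near `f` with more critical points which are
attracted by attracting cycles. (3) The maps without the property `IsThick` are nowhere dense. -/
theorem result (d m : ℕ) (hd : 2 ≤ d) (hm : m ≤ d) :
    (∀ (v : Pairs d m) (f : OnePoint ℂ → OnePoint ℂ), IsRational v f →
      (∃ ε : ℝ, 0 < ε ∧ ∀ w ∈ Metric.ball v ε, ∀ g, IsRational w g → AreConjugate f g) → IsThick f) ∧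
    (∀ (v : Pairs d m) (f : OnePoint ℂ → OnePoint ℂ), IsRational v f →
      IsThick f ∨
        ∀ ε : ℝ, 0 < ε → ∃ w ∈ Metric.ball v ε, ∃ g, IsRational w g ∧ attractedNumber f < attractedNumber g) ∧
    IsNowhereDense {v : Pairs d m | ∃ f : OnePoint ℂ → OnePoint ℂ, IsRational v f ∧ ¬ IsThick f} :=
  ⟨fun _ _ hf h => by
    obtain ⟨ε, hε, hs⟩ := h
    exact stable hd hm hf hε hs, fun _ _ hf => dich hd hm hf, exc_nwd hd hm⟩

end Pool.Agent.H56.FIN.DimS
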