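import Mathlib
import Pool.Agent.H32.RB.Main
import Pool.Agent.H56.MX.Defs

/-!
# Rational maps have no contracting scales

The work is in: `H56/MX`, `H56/MN` (the planar theorem), `H64/MN` (charts), `H47/OI` (the law of the critical passes), `H47/MM`
(lifts), `H15/LOC`, `H91/ATT` (the line fields of the critical points and their attractors), `H18/MF`, `H31/LOC`, `H47/LI`, `H18/WE`, `H66/IV`, `H3/NC`, `H64/NC`, `H57/CF`,
`H61/TT`, `H79/ES`, `H56/HR`, `H44/RC`, `H47/RJ`, `H47/PS`.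
-/

set_option autoImplicit false

namespace Pool.Agent.H56.FIN.NCX1

open Polynomial Filter Topology

/-- `f` is the rational map `P/Q` on the sphere. -/
def IsMap (f : OnePoint ℂ → OnePoint ℂ) (P Q : Polynomial ℂ) : Prop :=
  Continuous f ∧
    ∀ z : ℂ, Q.eval z ≠ 0 → f (OnePoint.some z) = OnePoint.some (P.eval z / Q.eval z)

/-- `c` is a critical point of `f`. -/
def IsCritical (f : OnePoint ℂ → OnePoint ℂ) (c : OnePoint ℂ) : Prop :=
  ¬ ∃ U ∈ nhds c, Set.InjOn f U

/-- `c` is attracted by an attracting cycle of `f` (words of the frozen statement `S05373`). -/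
def IsAttracted (f : OnePoint ℂ → OnePoint ℂ) (c : OnePoint ℂ) : Prop :=
  ∃ z : OnePoint ℂ, ∃ n : ℕ, 0 < n ∧ f^[n] z = z ∧
    (∃ U ∈ nhds z, ∀ w ∈ U,
      Filter.Tendsto (fun k : ℕ => f^[n * k] w) Filter.atTop (nhds z)) ∧
    Filter.Tendsto (fun k : ℕ => f^[n * k] c) Filter.atTop (nhds z)

/-- The number of the critical points which are attracted by attracting cycles. -/
noncomputable def attractedNumber (f : OnePoint ℂ → OnePoint ℂ) : ℕ :=
  {c : OnePoint ℂ | IsCritical f c ∧ IsAttracted f c}.ncard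

/-- The chordal distance of the Riemann sphere. -/
noncomputable def chordal : OnePoint ℂ → OnePoint ℂ → ℝ
  | OnePoint.some z, OnePoint.some w => ‖z - w‖ / (√(1 + ‖z‖ ^ 2) * √(1 + ‖w‖ ^ 2))
  | OnePoint.some z, OnePoint.infty => 1 / √(1 + ‖z‖ ^ 2)
  | OnePoint.infty, OnePoint.some w => 1 / √(1 + ‖w‖ ^ 2)
  | OnePoint.infty, OnePoint.infty => 0

/-- The Julia set of `f`: the points without a neighbourhood at whose points the iterates of `f` are
equicontinuous for the chordal distance. -/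
def julia (f : OnePoint ℂ → OnePoint ℂ) : Set (OnePoint ℂ) :=
  (interior {x | ∀ ε : ℝ, 0 < ε → ∀ᶠ y in nhds x, ∀ n : ℕ, chordal (f^[n] x) (f^[n] y) < ε})ᶜ

/-- The limit set of the orbit of `x`. -/
def limitSet (f : OnePoint ℂ → OnePoint ℂ) (x : OnePoint ℂ) : Set (OnePoint ℂ) :=
  {y | MapClusterPt y atTop fun n : ℕ => f^[n] x}

/-- `φ` is holomorphic at `u` as a map into the sphere: near `u` it is a holomorphic function or the inverse of a
holomorphic function (with `1/0 = ∞`). -/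
def IsHolomorphicAt (φ : ℂ → OnePoint ℂ) (u : ℂ) : Prop :=
  ∃ g : ℂ → ℂ, AnalyticAt ℂ g u ∧ ((∀ᶠ w in 𝓝 u, φ w = (g w : OnePoint ℂ)) ∨
    ∀ᶠ w in 𝓝 u, (g w = 0 → φ w = OnePoint.infty) ∧ (g w ≠ 0 → φ w = (((g w)⁻¹ : ℂ) : OnePoint ℂ)))

/-- `φ` is univalent (holomorphic and injective) on the unit disc. -/
def IsUnivalent (φ : ℂ → OnePoint ℂ) : Prop :=
  Set.InjOn φ (Metric.ball 0 1) ∧ ∀ u ∈ Metric.ball (0 : ℂ) 1, IsHolomorphicAt φ u

/-- The component at `c` of the preimage of the image of the disc of radius `r` under `φ`. -/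
def criticalDomain (f : OnePoint ℂ → OnePoint ℂ) (φ : ℂ → OnePoint ℂ) (r : ℝ) (c : OnePoint ℂ) : Set (OnePoint ℂ) :=
  connectedComponentIn (f ⁻¹' (φ '' Metric.ball 0 r)) c

/-- The pull back of `E` at the time `k` along `x, f(x), .., f^n(x)`: the connected component of its preimage
under `f^(n-k)` which contains `f^k(x)`. -/
def pullback (f : OnePoint ℂ → OnePoint ℂ) (E : Set (OnePoint ℂ)) (x : OnePoint ℂ) (n k : ℕ) : Set (OnePoint ℂ) :=
  connectedComponentIn {z | f^[n - k] z ∈ E} (f^[k] x)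

/-- The times `k < n` at which the pull back of `E` along `x, f(x), .., f^n(x)` contains a critical point. -/
def criticalTimes (f : OnePoint ℂ → OnePoint ℂ) (E : Set (OnePoint ℂ)) (x : OnePoint ℂ) (n : ℕ) : Set ℕ :=
  {k | k < n ∧ ∃ c, IsCritical f c ∧ c ∈ pullback f E x n k}

/-- The critical points in the Julia set such that the closure of the orbit meets the limit set of `a`. -/
def linked (f : OnePoint ℂ → OnePoint ℂ) (a : OnePoint ℂ) : Set (OnePoint ℂ) :=
  {c | IsCritical f c ∧ c ∈ julia f ∧ (closure (Set.range fun n : ℕ => f^[n] c) ∩ limitSet f a).Nonempty}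

/-- `(φ, 𝓤)` is a scale below `ε` for `a`. (1) For `c` in `linked f a` the map `φ c` is univalent on the unit disc, sends `0` to
`f(c)` and has its values at chordal distance less than `ε` from `f(c)`. (2) `𝓤` is a set of univalent maps `T` of the unit
disc with the values at chordal distance less than `ε` from `T 0`, one of which is in the limit set of `a`. (3) Every
nonempty closed subset of the limit set of `a` which is mapped into itself meets the critical domain of radius `k` of a point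
of `linked f a` or the image under a `T` in `𝓤` of the disc of radius `k`. -/
def IsScale (f : OnePoint ℂ → OnePoint ℂ) (a : OnePoint ℂ) (ε k : ℝ) (φ : OnePoint ℂ → ℂ → OnePoint ℂ)
    (𝓤 : Set (ℂ → OnePoint ℂ)) : Prop :=
  (∀ c ∈ linked f a, IsUnivalent (φ c) ∧ φ c 0 = f c ∧ ∀ u ∈ Metric.ball (0 : ℂ) 1, chordal (φ c u) (f c) < ε) ∧
  (∀ T ∈ 𝓤, IsUnivalent T ∧ (∀ u ∈ Metric.ball (0 : ℂ) 1, chordal (T u) (T 0) < ε) ∧
    ∃ u ∈ Metric.ball (0 : ℂ) 1, T u ∈ limitSet f a) ∧
  ∀ A ⊆ limitSet f a, IsClosed A → A.Nonempty → (∀ x ∈ A, f x ∈ A) →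
    (∃ c ∈ linked f a, (A ∩ criticalDomain f (φ c) k c).Nonempty) ∨ ∃ T ∈ 𝓤, (A ∩ T '' Metric.ball 0 k).Nonempty

/-- The targets of a scale: the critical domains of radius `1` of the points of `linked f a` and the images of the unit disc
under the maps in `𝓤`. -/
def targets (f : OnePoint ℂ → OnePoint ℂ) (a : OnePoint ℂ) (φ : OnePoint ℂ → ℂ → OnePoint ℂ)
    (𝓤 : Set (ℂ → OnePoint ℂ)) : Set (Set (OnePoint ℂ)) :=
  {E | (∃ b ∈ linked f a, E = criticalDomain f (φ b) 1 b) ∨ ∃ T ∈ 𝓤, E = T '' Metric.ball 0 1}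

/-- At the scale `(φ, 𝓤)` the visits of criticality at least `N` contract by the factor `k`: whenever `E` is a target, `c` is in
`linked f a`, `f^n(c)` lies in `E` and the pull backs of `E` along `c, f(c), .., f^n(c)` have at least `N` critical times, then
one of these pull backs `Y` contains a point `q` of `linked f a` and `f(Y)` is contained in the image under `φ q` of the disc
of radius `k`. -/
def ContractsAt (f : OnePoint ℂ → OnePoint ℂ) (a : OnePoint ℂ) (N : ℕ) (k : ℝ) (φ : OnePoint ℂ → ℂ → OnePoint ℂ)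
    (𝓤 : Set (ℂ → OnePoint ℂ)) : Prop :=
  ∀ E ∈ targets f a φ 𝓤, ∀ c ∈ linked f a, ∀ n : ℕ, f^[n] c ∈ E → N ≤ (criticalTimes f E c n).ncard →
    ∃ j < n, ∃ q ∈ linked f a, q ∈ pullback f E c n j ∧ ∀ z ∈ pullback f E c n j, f z ∈ φ q '' Metric.ball 0 k

/-- If the orbit of `a` is not dense in the sphere, then for all `N` and `k < 1` there is `ε > 0` such that at no scale below
`ε` for `a` the visits of criticality at least `N` contract by the factor `k`. -/
def HasNoContractingScale (f : OnePoint ℂ → OnePoint ℂ) (a : OnePoint ℂ) : Prop :=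
  closure (Set.range fun n : ℕ => f^[n] a) ≠ Set.univ →
    ∀ (N : ℕ) (k : ℝ), k < 1 → ∃ ε : ℝ, 0 < ε ∧ ∀ (φ : OnePoint ℂ → ℂ → OnePoint ℂ) (𝓤 : Set (ℂ → OnePoint ℂ)),
      IsScale f a ε k φ 𝓤 → ¬ ContractsAt f a N k φ 𝓤

/-- All critical points in the Julia set have the property `HasNoContractingScale`. -/
def HasNoContractingScales (f : OnePoint ℂ → OnePoint ℂ) : Prop :=
  ∀ a, IsCritical f a → a ∈ julia f → HasNoContractingScale f a

/-- `f` and `g` are topologically conjugate. -/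
def AreConjugate (f g : OnePoint ℂ → OnePoint ℂ) : Prop :=
  ∃ h : OnePoint ℂ ≃ₜ OnePoint ℂ, ∀ x, h (f x) = g (h x)

/-- The polynomial of degree at most `d` with coefficients `v`. -/
noncomputable def poly {d : ℕ} (v : Fin (d + 1) → ℂ) : Polynomial ℂ := ∑ i, C (v i) * X ^ (i : ℕ)

/-- Pairs of polynomials `P`, `Q` with `deg P ≤ d`, `deg Q ≤ d - m`, given by their coefficients. -/
abbrev Pairs (d m : ℕ) : Type := (Fin (d + 1) → ℂ) × (Fin (d - m + 1) → ℂ)

/-- `f = P/Q` is the rational map of degree exactly `d` given by the pair `v = (P, Q)` of coprime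
polynomials, `deg Q ≤ d - m`. For `m = 0` these are all rational maps of degree `d`, for `m ≥ 1` those
which fix infinity with local degree at least `m`, for `m = d` the polynomials (up to the constant `Q`). -/
def IsRational {d m : ℕ} (v : Pairs d m) (f : OnePoint ℂ → OnePoint ℂ) : Prop :=
  IsCoprime (poly v.1) (poly v.2) ∧ max (poly v.1).natDegree (poly v.2).natDegree = d ∧
    IsMap f (poly v.1) (poly v.2)

theorem chord_eq (x y : OnePoint ℂ) : chordal x y = Pool.Agent.H35.EX.chord x y := by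
  induction x using OnePoint.rec with
  | infty =>
    induction y using OnePoint.rec with
    | infty => rfl
    | coe y => rfl
  | coe x =>
    induction y using OnePoint.rec with
    | infty => rfl
    | coe y => rfl

theorem julia_eq (f : OnePoint ℂ → OnePoint ℂ) : julia f = Pool.Agent.H44.RC.JS f := by
  unfold julia Pool.Agent.H44.RC.JS Pool.Agent.H56.HR.FS Pool.Agent.H56.HR.EqAt
  simp only [chord_eq]

theorem att_iff {f : OnePoint ℂ → OnePoint ℂ} {c : OnePoint ℂ} :
    Pool.Agent.H32.BT.Att f c ↔ IsAttracted f c := by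
  constructor
  · rintro ⟨z, n, ⟨h1, h2, h3⟩, h4⟩
    exact ⟨z, n, h1, h2, h3, h4⟩
  · rintro ⟨z, n, h1, h2, h3, h4⟩
    exact ⟨z, n, ⟨h1, h2, h3⟩, h4⟩

theorem number_eq {d : ℕ} (v : Pool.Agent.H79.Eul.E d) :
    attractedNumber (Pool.Agent.H79.Par.Rf v) = Pool.Agent.H79.ES.NA v := by
  unfold attractedNumber Pool.Agent.H79.ES.NA
  congr 1
  ext c
  exact and_congr Iff.rfl att_iff.symm

theorem map_eq {d m : ℕ} (hd : 2 ≤ d) {v : Pairs d m} {f : OnePoint ℂ → OnePoint ℂ} (h : IsRational v f) :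
    f = Pool.Agent.H79.Par.Rf (Pool.Agent.H47.NM.ex d m v) := by
  obtain ⟨h1, h2, h3⟩ := h
  have h1' : IsCoprime (Pool.Agent.H79.Eul.pol v.1) (Pool.Agent.H79.Eul.pol v.2) := h1
  have h2' : max (Pool.Agent.H79.Eul.pol v.1).natDegree (Pool.Agent.H79.Eul.pol v.2).natDegree = d := h2
  have hB0 : Pool.Agent.H79.Eul.pol v.2 ≠ 0 := Pool.Agent.H32.BT.den_ne_zero h1' (by omega)
  have h4 := Pool.Agent.H32.RB.ext_eq h1' hB0 h3
  unfold Pool.Agent.H79.Par.Rf
  rw [(Pool.Agent.H47.NM.ex_pol v).1, (Pool.Agent.H47.NM.ex_pol v).2]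
  exact h4

theorem rat_is {d m : ℕ} {v : Pairs d m} (h1 : IsCoprime (poly v.1) (poly v.2))
    (h2 : max (poly v.1).natDegree (poly v.2).natDegree = d) : IsRational v
      (Pool.Agent.H79.Par.Rf (Pool.Agent.H47.NM.ex d m v)) := by
  have h1' : IsCoprime (Pool.Agent.H79.Eul.pol v.1) (Pool.Agent.H79.Eul.pol v.2) := h1
  unfold Pool.Agent.H79.Par.Rf
  rw [(Pool.Agent.H47.NM.ex_pol v).1, (Pool.Agent.H47.NM.ex_pol v).2]
  refine ⟨h1, h2, Pool.Agent.H44.Fatou.rat_continuous h1', fun z hz => ?_⟩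
  exact Pool.Agent.H44.Fatou.rat_coe_of_ne hz

theorem limit_eq (f : OnePoint ℂ → OnePoint ℂ) (x : OnePoint ℂ) :
    Pool.Agent.H44.RC.Om f x = limitSet f x := by
  ext y
  exact mapClusterPt_iff_frequently.symm

theorem cl_eq (f : OnePoint ℂ → OnePoint ℂ) (a : OnePoint ℂ) : Pool.Agent.H56.MX.Cl f a = linked f a := by
  unfold Pool.Agent.H56.MX.Cl linked
  simp only [limit_eq, julia_eq]
  rfl

theorem scl_of {f : OnePoint ℂ → OnePoint ℂ} {a : OnePoint ℂ} {ε k : ℝ} {φ : OnePoint ℂ → ℂ → OnePoint ℂ}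
    {𝓤 : Set (ℂ → OnePoint ℂ)} (h : IsScale f a ε k φ 𝓤) : Pool.Agent.H56.MX.Scl f a ε k φ 𝓤 := by
  obtain ⟨h1, h2, h3⟩ := h
  unfold Pool.Agent.H56.MX.Scl
  rw [cl_eq, limit_eq]
  simp only [chord_eq] at h1 h2
  exact ⟨h1, h2, h3⟩

theorem csx_of {f : OnePoint ℂ → OnePoint ℂ} {a : OnePoint ℂ} {N : ℕ} {k : ℝ} {φ : OnePoint ℂ → ℂ → OnePoint ℂ}
    {𝓤 : Set (ℂ → OnePoint ℂ)} (h : ContractsAt f a N k φ 𝓤) :
    Pool.Agent.H56.MX.CSX f (Pool.Agent.H56.MX.Cl f a) (Pool.Agent.H56.MX.Tg f (Pool.Agent.H56.MX.Cl f a) φ 𝓤) N k φ := by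
  rw [cl_eq]
  exact h

theorem ncs_of {f : OnePoint ℂ → OnePoint ℂ} (h : Pool.Agent.H56.MX.NCX f) {a : OnePoint ℂ} (ha : IsCritical f a)
    (haJ : a ∈ julia f) : HasNoContractingScale f a := by
  intro h1 N k hk
  rw [julia_eq] at haJ
  obtain ⟨ε, hε, h2⟩ := h a ha haJ h1 N k hk
  exact ⟨ε, hε, fun φ 𝓤 hφ hc => h2 φ 𝓤 (scl_of hφ) (csx_of hc)⟩

/-- The dichotomy for one map. -/
theorem dich (hM : Pool.Agent.H56.MX.MXStm) {d m : ℕ} (hd : 2 ≤ d) (hm : m ≤ d) {v : Pairs d m}
    {f : OnePoint ℂ → OnePoint ℂ} (hf : IsRational v f) :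
    HasNoContractingScales f ∨
      ∀ ε : ℝ, 0 < ε → ∃ w ∈ Metric.ball v ε, ∃ g, IsRational w g ∧ attractedNumber f < attractedNumber g := by
  have h1 := hf.1
  have h2 := hf.2.1
  have hfe := map_eq hd hf
  subst hfe
  by_cases hup : Pool.Agent.H57.CF.UpF d m v
  · right
    intro ε hε
    obtain ⟨w, hw, h3, h4, h5⟩ := hup ε hε
    refine ⟨w, hw, _, rat_is h3 h4, ?_⟩
    rw [number_eq, number_eq]
    exact h5
  · left
    exact fun c hc hcJ => ncs_of (hM d m hd hm v h1 h2 hup) hc hcJ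

/-- The exceptional maps are nowhere dense. -/
theorem exc_nwd (hM : Pool.Agent.H56.MX.MXStm) {d m : ℕ} (hd : 2 ≤ d) (hm : m ≤ d) :
    IsNowhereDense {v : Pairs d m | ∃ f : OnePoint ℂ → OnePoint ℂ, IsRational v f ∧ ¬ HasNoContractingScales f} := by
  refine (Pool.Agent.H57.CF.upF_nwd hd).mono ?_
  rintro v ⟨f, hf, hn⟩
  refine ⟨hf.1, hf.2.1, fun ε hε => ?_⟩
  have hfe := map_eq hd hf
  subst hfe
  obtain ⟨w, hw, g, hg, hlt⟩ := (dich hM hd hm hf).resolve_left hn ε hε
  have hge := map_eq hd hg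
  subst hge
  refine ⟨w, hw, hg.1, hg.2.1, ?_⟩
  rw [number_eq, number_eq] at hlt
  exact hlt

/-- Conjugate maps have the same number of attracted critical points. -/
theorem number_conj {f g : OnePoint ℂ → OnePoint ℂ} (h : AreConjugate f g) :
    attractedNumber f = attractedNumber g := by
  obtain ⟨φ, hφ⟩ := h
  unfold attractedNumber
  have h1 : {c : OnePoint ℂ | IsCritical g c ∧ IsAttracted g c} =
      φ '' {c : OnePoint ℂ | IsCritical f c ∧ IsAttracted f c} := by
    ext y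
    obtain ⟨x, rfl⟩ := φ.surjective y
    have h2 : IsCritical g (φ x) ↔ IsCritical f x :=
      Pool.Agent.H32.BT.isCrit_conj φ (fun y => (hφ y).symm) x
    have h3 := Pool.Agent.H32.BT.att_conj φ (fun y => (hφ y).symm) x
    rw [att_iff, att_iff] at h3
    constructor
    · rintro ⟨h4, h5⟩
      exact ⟨x, ⟨h2.1 h4, h3.1 h5⟩, rfl⟩
    · rintro ⟨z, ⟨h4, h5⟩, he⟩
      rw [φ.injective he] at h4 h5
      exact ⟨h2.2 h4, h3.2 h5⟩
  rw [h1, Set.ncard_image_of_injective _ φ.injective]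

theorem stable (hM : Pool.Agent.H56.MX.MXStm) {d m : ℕ} (hd : 2 ≤ d) (hm : m ≤ d) {v : Pairs d m}
    {f : OnePoint ℂ → OnePoint ℂ} (hf : IsRational v f) {ε : ℝ} (hε : 0 < ε)
    (hs : ∀ w ∈ Metric.ball v ε, ∀ g, IsRational w g → AreConjugate f g) : HasNoContractingScales f := by
  refine (dich hM hd hm hf).resolve_right fun h => ?_
  obtain ⟨w, hw, g, hg, hlt⟩ := h ε hε
  exact hlt.ne (number_conj (hs w hw g hg))

/-- Let `2 ≤ d`, `m ≤ d`, and consider the rational maps `f = P/Q` of degree `d` with `deg Q ≤ d - m`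
(`m = 0`: all rational maps of degree `d`; `m = d`: all polynomials of degree `d`).
(1) If all maps of the family near `f` are topologically conjugate to `f`, then `f` has the property
`HasNoContractingScales`. (2) EVERY `f` has this property, or there are maps of the family arbitrarily near `f` with more
critical points which are attracted by attracting cycles. (3) The maps without this property are nowhere dense. -/
theorem result (hM : Pool.Agent.H56.MX.MXStm) (d m : ℕ) (hd : 2 ≤ d) (hm : m ≤ d) :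
    (∀ (v : Pairs d m) (f : OnePoint ℂ → OnePoint ℂ), IsRational v f →
      (∃ ε : ℝ, 0 < ε ∧ ∀ w ∈ Metric.ball v ε, ∀ g, IsRational w g → AreConjugate f g) → HasNoContractingScales f) ∧
    (∀ (v : Pairs d m) (f : OnePoint ℂ → OnePoint ℂ), IsRational v f →
      HasNoContractingScales f ∨
        ∀ ε : ℝ, 0 < ε → ∃ w ∈ Metric.ball v ε, ∃ g, IsRational w g ∧ attractedNumber f < attractedNumber g) ∧
    IsNowhereDense {v : Pairs d m | ∃ f : OnePoint ℂ → OnePoint ℂ, IsRational v f ∧ ¬ HasNoContractingScales f} :=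
  ⟨fun _ _ hf h => by
    obtain ⟨ε, hε, hs⟩ := h
    exact stable hM hd hm hf hε hs, fun _ _ hf => dich hM hd hm hf, exc_nwd hM hd hm⟩

end Pool.Agent.H56.FIN.NCX1
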